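import Pool.Agent.H134R3.DM.Ker

set_option autoImplicit false
set_option maxHeartbeats 4000000

namespace Pool.Agent.H134R3.DM

open Finset Pool.Agent.H308R3.DM
open scoped Classical BigOperators

noncomputable section

theorem sum_pairs (g : ℕ → ℝ) (c : ℝ) (M : ℕ) (h : ∀ l < M, c ≤ g (2 * l) + g (2 * l + 1)) :
    (M : ℝ) * c ≤ ∑ n ∈ range (2 * M), g n := by
  induction M with
  | zero => simp
  | succ M ih =>
    have e : 2 * (M + 1) = 2 * M + 1 + 1 := by ring
    rw [e, sum_range_succ, sum_range_succ]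
    have h1 := ih fun l hl => h l (by omega)
    have h2 := h M (by omega)
    push_cast
    linarith

theorem abs_hit (B : Finset Pt) (I : Set Pt) (s1 M : ℕ) (hs : 1 ≤ s1) (hs' : s1 % 2 = 0)
    (hM : 1 ≤ M) (a b R : ℝ) (ha : 0 < a) (hb : 0 < b) (hR0 : 0 < R) (hR1 : R ≤ 1)
    (hL : ∀ u ∈ I, ∀ v ∈ I, ∀ n, s1 ≤ n → (u.1 + v.1 + n) % 2 = 0 → a * R ^ n ≤ It B n (dl v) u)
    (hU : ∀ u ∈ I, ∀ v ∈ I, ∀ n, s1 ≤ n → It B n (dl v) u ≤ b * R ^ n)
    (hP : ∀ u ∈ I, ∀ v ∈ I, ∀ n : ℕ, (u.1 + v.1 + n) % 2 ≠ 0 → It B n (dl v) u = 0)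
    (hRt : ∀ u ∈ I, ∀ n : ℕ, It B n (dl u) u ≤ 1 / ((n : ℝ) + 1))
    (x y z : Pt) (hx : x ∈ I) (hy : y ∈ I) (hz : z ∈ I) (hxy : (x.1 - y.1) % 2 = 0) :
    It (B.erase z) (s1 + (2 * M + s1)) (dl y) x +
      a ^ 3 * R ^ (2 * M) * M / (b ^ 2 * ∑ l ∈ range (2 * M), 1 / ((l : ℝ) + 1)) *
        It B (s1 + (2 * M + s1)) (dl y) x ≤ It B (s1 + (2 * M + s1)) (dl y) x := by
  set H : ℝ := ∑ l ∈ range (2 * M), 1 / ((l : ℝ) + 1) with hH
  have hHpos : 0 < H := by
    rw [hH]
    refine sum_pos (fun l _ => by positivity) ⟨0, mem_range.2 (by omega)⟩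
  have hfz : ∀ i, ff B z s1 i x ≤ It B (s1 + i) (dl z) x := by
    intro i
    rw [renewal B z x s1 i]
    have h1 : ff B z s1 i x = ff B z s1 i x * It B (i - i) (dl z) z := by
      rw [Nat.sub_self]
      show _ = _ * (if z = z then (1 : ℝ) else 0)
      rw [if_pos rfl, mul_one]
    rw [h1]
    exact single_le_sum (f := fun j => ff B z s1 j x * It B (i - j) (dl z) z)
      (fun j _ => mul_nonneg (ff_nonneg _ _ _ _ _) (It_nonneg _ _ (dl_nonneg z) _ _))
      (mem_range.2 (Nat.lt_succ_self i))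
  have hf0 : ∀ i, (x.1 + z.1 + (s1 + i : ℕ)) % 2 ≠ 0 → ff B z s1 i x = 0 := by
    intro i hi
    have h1 := hfz i
    rw [hP x hx z hz _ hi] at h1
    exact le_antisymm h1 (ff_nonneg _ _ _ _ _)
  set F : ℝ := ∑ i ∈ range (2 * M), ff B z s1 i x * R ^ (2 * M + s1 - i) with hF
  have hhit := hit_lower B z x (dl y) (dl_nonneg y) s1 (2 * M + s1) hs
  set hit : ℝ := ∑ i ∈ range (2 * M + s1 + 1), ff B z s1 i x * It B (2 * M + s1 - i) (dl y) z
    with hhitdef
  have h1 : a * F ≤ hit := by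
    have h2 : ∑ i ∈ range (2 * M), ff B z s1 i x * It B (2 * M + s1 - i) (dl y) z ≤ hit := by
      rw [hhitdef]
      refine sum_le_sum_of_subset_of_nonneg (range_subset_range.2 (by omega)) fun i _ _ =>
        mul_nonneg (ff_nonneg _ _ _ _ _) (It_nonneg _ _ (dl_nonneg y) _ _)
    refine le_trans ?_ h2
    rw [hF, mul_sum]
    refine sum_le_sum fun i hi => ?_
    rw [mem_range] at hi
    by_cases hpar : (x.1 + z.1 + (s1 + i : ℕ)) % 2 = 0
    · have h3 := hL z hz y hy (2 * M + s1 - i) (by omega) (by push_cast at hpar; omega)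
      calc a * (ff B z s1 i x * R ^ (2 * M + s1 - i))
          = ff B z s1 i x * (a * R ^ (2 * M + s1 - i)) := by ring
        _ ≤ _ := mul_le_mul_of_nonneg_left h3 (ff_nonneg _ _ _ _ _)
    · rw [hf0 i hpar]; simp
  set N : ℝ := ∑ n ∈ range (2 * M), It B (s1 + n) (dl z) x * It B (2 * M + s1 - n) (dl y) z with hN
  have hNlow : (M : ℝ) * (a ^ 2 * R ^ (s1 + (2 * M + s1))) ≤ N := by
    rw [hN]
    refine sum_pairs _ _ M fun l hl => ?_
    have hterm : ∀ n, n < 2 * M → 0 ≤ It B (s1 + n) (dl z) x * It B (2 * M + s1 - n) (dl y) z :=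
      fun n _ => mul_nonneg (It_nonneg _ _ (dl_nonneg z) _ _) (It_nonneg _ _ (dl_nonneg y) _ _)
    have hgood : ∀ n, n < 2 * M → (x.1 + z.1 + (s1 + n : ℕ)) % 2 = 0 →
        a ^ 2 * R ^ (s1 + (2 * M + s1)) ≤
          It B (s1 + n) (dl z) x * It B (2 * M + s1 - n) (dl y) z := by
      intro n hn hpar
      have h3 := hL x hx z hz (s1 + n) (by omega) hpar
      have h4 := hL z hz y hy (2 * M + s1 - n) (by omega) (by push_cast at hpar; omega)
      calc a ^ 2 * R ^ (s1 + (2 * M + s1))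
          = (a * R ^ (s1 + n)) * (a * R ^ (2 * M + s1 - n)) := by
            have : s1 + (2 * M + s1) = (s1 + n) + (2 * M + s1 - n) := by omega
            rw [this, pow_add]; ring
        _ ≤ _ := mul_le_mul h3 h4 (by positivity) (It_nonneg _ _ (dl_nonneg z) _ _)
    by_cases hpar : (x.1 + z.1 + (s1 + 2 * l : ℕ)) % 2 = 0
    · have h5 := hgood (2 * l) (by omega) hpar
      have h6 := hterm (2 * l + 1) (by omega)
      linarith
    · have h5 := hgood (2 * l + 1) (by omega) (by push_cast at hpar ⊢; omega)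
      have h6 := hterm (2 * l) (by omega)
      linarith
  have hNup : R ^ (2 * M) * N ≤ b * H * F := by
    have h2 : R ^ (2 * M) * N ≤ ∑ n ∈ range (2 * M), ∑ i ∈ range (n + 1),
        (ff B z s1 i x * R ^ (2 * M + s1 - i)) * (b * (1 / (((n - i : ℕ) : ℝ) + 1))) := by
      rw [hN, mul_sum]
      refine sum_le_sum fun n hn => ?_
      rw [mem_range] at hn
      rw [renewal B z x s1 n, sum_mul, mul_sum]
      refine sum_le_sum fun i hi => ?_
      rw [mem_range] at hi
      have h3 := hRt z hz (n - i)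
      have h4 := hU z hz y hy (2 * M + s1 - n) (by omega)
      have h5 : R ^ (2 * M) * R ^ (2 * M + s1 - n) ≤ R ^ (2 * M + s1 - i) := by
        rw [← pow_add]
        exact pow_le_pow_of_le_one hR0.le hR1 (by omega)
      have hf := ff_nonneg B z s1 i x
      calc R ^ (2 * M) * (ff B z s1 i x * It B (n - i) (dl z) z * It B (2 * M + s1 - n) (dl y) z)
          ≤ R ^ (2 * M) * (ff B z s1 i x * (1 / (((n - i : ℕ) : ℝ) + 1)) *
              (b * R ^ (2 * M + s1 - n))) := by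
            refine mul_le_mul_of_nonneg_left ?_ (by positivity)
            refine mul_le_mul (mul_le_mul_of_nonneg_left h3 hf) h4
              (It_nonneg _ _ (dl_nonneg y) _ _) (by positivity)
        _ = (R ^ (2 * M) * R ^ (2 * M + s1 - n)) *
              (ff B z s1 i x * (b * (1 / (((n - i : ℕ) : ℝ) + 1)))) := by ring
        _ ≤ R ^ (2 * M + s1 - i) * (ff B z s1 i x * (b * (1 / (((n - i : ℕ) : ℝ) + 1)))) :=
            mul_le_mul_of_nonneg_right h5 (by positivity)
        _ = _ := by ring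
    refine h2.trans ?_
    rw [sum_range_diag_flip (2 * M) (fun i k =>
      (ff B z s1 i x * R ^ (2 * M + s1 - i)) * (b * (1 / ((k : ℝ) + 1))))]
    have h6 : b * H * F = ∑ i ∈ range (2 * M), (ff B z s1 i x * R ^ (2 * M + s1 - i)) * (b * H) := by
      rw [hF, mul_sum]
      refine sum_congr rfl fun i _ => by ring
    rw [h6]
    refine sum_le_sum fun i _ => ?_
    rw [← mul_sum, ← mul_sum]
    have hf := ff_nonneg B z s1 i x
    refine mul_le_mul_of_nonneg_left (mul_le_mul_of_nonneg_left ?_ hb.le) (by positivity)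
    rw [hH]
    exact sum_le_sum_of_subset_of_nonneg (range_subset_range.2 (by omega)) fun k _ _ => by
      positivity
  have hKT := hU x hx y hy (s1 + (2 * M + s1)) (by omega)
  have hKT0 := It_nonneg B (dl y) (dl_nonneg y) (s1 + (2 * M + s1)) x
  set KT := It B (s1 + (2 * M + s1)) (dl y) x with hKTd
  have hfin : a ^ 3 * R ^ (2 * M) * M / (b ^ 2 * H) * KT ≤ hit := by
    rw [div_mul_eq_mul_div, div_le_iff₀ (by positivity)]
    have e1 : a * (R ^ (2 * M) * ((M : ℝ) * (a ^ 2 * R ^ (s1 + (2 * M + s1))))) ≤ b * H * hit := by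
      calc a * (R ^ (2 * M) * ((M : ℝ) * (a ^ 2 * R ^ (s1 + (2 * M + s1)))))
          ≤ a * (R ^ (2 * M) * N) :=
            mul_le_mul_of_nonneg_left (mul_le_mul_of_nonneg_left hNlow (by positivity)) ha.le
        _ ≤ a * (b * H * F) := mul_le_mul_of_nonneg_left hNup ha.le
        _ = b * H * (a * F) := by ring
        _ ≤ b * H * hit := mul_le_mul_of_nonneg_left h1 (by positivity)
    calc a ^ 3 * R ^ (2 * M) * M * KT
        ≤ a ^ 3 * R ^ (2 * M) * M * (b * R ^ (s1 + (2 * M + s1))) :=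
          mul_le_mul_of_nonneg_left hKT (by positivity)
      _ = b * (a * (R ^ (2 * M) * ((M : ℝ) * (a ^ 2 * R ^ (s1 + (2 * M + s1)))))) := by ring
      _ ≤ b * (b * H * hit) := mul_le_mul_of_nonneg_left e1 hb.le
      _ = hit * (b ^ 2 * H) := by ring
  linarith

end

end Pool.Agent.H134R3.DM
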