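import Pool.Agent.H134R3.DM.Abs

set_option autoImplicit false
set_option maxHeartbeats 4000000

namespace Pool.Agent.H134R3.DM

open Finset Pool.Agent.H308R3.DM
open scoped Classical BigOperators

noncomputable section

theorem sin_lb (r : ℝ) (h1 : 1 / 8 ≤ r) (h2 : r ≤ 7 / 8) : 1 / 4 ≤ Real.sin (Real.pi * r) := by
  have hpi := Real.pi_pos
  have key : ∀ s : ℝ, 1 / 8 ≤ s → s ≤ 1 / 2 → 1 / 4 ≤ Real.sin (Real.pi * s) := by
    intro s hs1 hs2
    have h := Real.mul_le_sin (x := Real.pi * s) (by positivity) (by nlinarith)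
    have e : 2 / Real.pi * (Real.pi * s) = 2 * s := by field_simp
    rw [e] at h
    linarith
  rcases le_total r (1 / 2) with h | h
  · exact key r h1 h
  · have h3 := key (1 - r) (by linarith) (by linarith)
    have e : Real.pi * (1 - r) = Real.pi - Real.pi * r := by ring
    rw [e, Real.sin_pi_sub] at h3
    exact h3

theorem harm_le (M : ℕ) :
    ∑ l ∈ range (2 * M), 1 / ((l : ℝ) + 1) ≤ 1 + Real.log ((2 * M : ℕ) : ℝ) := by
  refine le_trans (le_of_eq ?_) (harmonic_le_one_add_log (2 * M))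
  rw [harmonic]
  push_cast
  refine sum_congr rfl fun l _ => ?_
  rw [one_div]

theorem taskHit : TaskMix → TaskRet → TaskProd → TaskHit := by
  intro hMix hRet hProd
  obtain ⟨C0, hC0, hmix⟩ := hMix
  set C1 : ℝ := 2916 * C0 + 6 with hC1
  refine ⟨C1 + 9, 1 / (2 ^ 30 * 400), by positivity, by positivity, by norm_num, fun m hm => ?_⟩
  have hm' : (1 : ℝ) ≤ m := by exact_mod_cast hm
  set L : ℝ := Real.log m with hLd
  have hL0 : 0 ≤ L := Real.log_nonneg hm'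
  set s0 : ℕ := ⌈C0 * ((8 * m + 1 : ℕ) : ℝ) ^ 2 * (1 + Real.log ((8 * m + 1 : ℕ) : ℝ))⌉₊ with hs0
  have hAr : ((8 * m + 1 : ℕ) : ℝ) = 8 * m + 1 := by push_cast; ring
  have hlogA0 : 0 ≤ Real.log ((8 * m + 1 : ℕ) : ℝ) := Real.log_nonneg (by rw [hAr]; linarith)
  have hlogA : Real.log ((8 * m + 1 : ℕ) : ℝ) ≤ 8 + L := by
    have h1 : ((8 * m + 1 : ℕ) : ℝ) ≤ 9 * m := by rw [hAr]; linarith
    have h2 : Real.log ((8 * m + 1 : ℕ) : ℝ) ≤ Real.log (9 * m) :=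
      Real.log_le_log (by rw [hAr]; positivity) h1
    rw [Real.log_mul (by norm_num) (by positivity)] at h2
    have h3 := Real.log_le_sub_one_of_pos (show (0 : ℝ) < 9 by norm_num)
    linarith
  have harg : 0 < C0 * ((8 * m + 1 : ℕ) : ℝ) ^ 2 * (1 + Real.log ((8 * m + 1 : ℕ) : ℝ)) := by
    have : (0 : ℝ) < ((8 * m + 1 : ℕ) : ℝ) := by rw [hAr]; positivity
    positivity
  have hs0pos : 1 ≤ s0 := Nat.one_le_ceil_iff.2 harg
  have hs0le : (s0 : ℝ) ≤ 729 * C0 * m ^ 2 * (1 + L) + 1 := by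
    have h1 := (Nat.ceil_lt_add_one harg.le).le
    refine h1.trans ?_
    have h2 : ((8 * m + 1 : ℕ) : ℝ) ^ 2 ≤ 81 * m ^ 2 := by rw [hAr]; nlinarith
    have h3 : 1 + Real.log ((8 * m + 1 : ℕ) : ℝ) ≤ 9 * (1 + L) := by linarith
    have h4 : C0 * ((8 * m + 1 : ℕ) : ℝ) ^ 2 * (1 + Real.log ((8 * m + 1 : ℕ) : ℝ)) ≤
        C0 * (81 * m ^ 2) * (9 * (1 + L)) :=
      mul_le_mul (mul_le_mul_of_nonneg_left h2 hC0.le) h3 (by positivity) (by positivity)
    linarith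
  set s1 : ℕ := 2 * s0 with hs1
  refine ⟨s1 + (2 * m ^ 2 + s1), ?_, ?_⟩
  · have hm2 : (1 : ℝ) ≤ (m : ℝ) ^ 2 * (1 + L) := by nlinarith [mul_nonneg (sq_nonneg (m : ℝ)) hL0]
    have hm3 : (m : ℝ) ^ 2 ≤ (m : ℝ) ^ 2 * (1 + L) := by nlinarith [mul_nonneg (sq_nonneg (m : ℝ)) hL0]
    rw [hs1]
    push_cast
    rw [hC1]
    nlinarith
  have hTle : ((s1 + (2 * m ^ 2 + s1) : ℕ) : ℝ) ≤ C1 * (m : ℝ) ^ 2 * (1 + L) := by
    have hm2 : (1 : ℝ) ≤ (m : ℝ) ^ 2 * (1 + L) := by nlinarith [mul_nonneg (sq_nonneg (m : ℝ)) hL0]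
    have hm3 : (m : ℝ) ^ 2 ≤ (m : ℝ) ^ 2 * (1 + L) := by nlinarith [mul_nonneg (sq_nonneg (m : ℝ)) hL0]
    rw [hs1]
    push_cast
    rw [hC1]
    nlinarith
  intro x y z hx hy hz hxy
  set B : Finset Pt := Bx (8 * m + 1) with hB
  set t : ℝ := Real.pi / (((8 * m + 1 : ℕ) : ℝ) + 1) with ht
  have hpi := Real.pi_pos
  have hpi2 : Real.pi ^ 2 ≤ 10 := by nlinarith [Real.pi_lt_d2, Real.pi_gt_d2]
  have hA1 : ((8 * m + 1 : ℕ) : ℝ) + 1 = 8 * m + 2 := by rw [hAr]; ring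
  have ht0 : 0 < t := by rw [ht, hA1]; positivity
  have ht2 : t ^ 2 ≤ 10 / (64 * (m : ℝ) ^ 2) := by
    rw [ht, hA1, div_pow, div_le_div_iff₀ (by positivity) (by positivity)]
    nlinarith [mul_le_mul_of_nonneg_right hpi2 (show (0 : ℝ) ≤ 64 * (m : ℝ) ^ 2 by positivity)]
  have ht2' : t ^ 2 ≤ 10 / 64 := by
    refine ht2.trans ?_
    rw [div_le_div_iff₀ (by positivity) (by norm_num)]
    nlinarith
  set ρ : ℝ := Real.cos t with hρ
  have hρ1 : ρ ≤ 1 := Real.cos_le_one t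
  have hρlow : 1 - t ^ 2 / 2 ≤ ρ := Real.one_sub_sq_div_two_le_cos
  have hρ0 : 0 < ρ := by linarith
  -- inner points
  have hin : ∀ u ∈ sq (4 * (m : ℤ) + 1, 4 * (m : ℤ) + 1) (3 * m), (m : ℤ) + 1 ≤ u.1 ∧ u.1 ≤ 7 * m + 1 ∧
      (m : ℤ) + 1 ≤ u.2 ∧ u.2 ≤ 7 * m + 1 ∧ (u.1 - u.2) % 2 = 0 := by
    intro u hu
    simp only [Pool.Agent.H308R3.DM.sq, mem_filter, mem_product, mem_Icc] at hu
    push_cast at hu
    obtain ⟨⟨⟨h1, h2⟩, h3, h4⟩, h5⟩ := hu
    exact ⟨by omega, by omega, by omega, by omega, h5⟩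
  have hinB : ∀ u ∈ sq (4 * (m : ℤ) + 1, 4 * (m : ℤ) + 1) (3 * m), u ∈ B := by
    intro u hu
    obtain ⟨h1, h2, h3, h4, h5⟩ := hin u hu
    rw [hB]
    simp only [Bx, mem_filter, mem_product, mem_Icc]
    push_cast
    exact ⟨⟨⟨by omega, by omega⟩, by omega, by omega⟩, h5⟩
  have hItq : ∀ u ∈ sq (4 * (m : ℤ) + 1, 4 * (m : ℤ) + 1) (3 * m), ∀ (v : Pt) (n : ℕ),
      It B n (dl v) u = q (8 * m + 1) n u.1 v.1 * q (8 * m + 1) n u.2 v.2 := by
    intro u hu v n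
    rw [← hProd (8 * m + 1) n u v (hinB u hu), ex_It, if_pos (empty_subset _)]
  have hsin : ∀ c : ℤ, (m : ℤ) + 1 ≤ c → c ≤ 7 * m + 1 →
      1 / 4 ≤ Real.sin (Real.pi * c / (((8 * m + 1 : ℕ) : ℝ) + 1)) := by
    intro c h1 h2
    have h1' : (m : ℝ) + 1 ≤ c := by exact_mod_cast h1
    have h2' : (c : ℝ) ≤ 7 * m + 1 := by exact_mod_cast h2
    rw [mul_div_assoc]
    refine sin_lb _ ?_ ?_
    · rw [hA1, div_le_div_iff₀ (by norm_num) (by positivity)]; linarith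
    · rw [hA1, div_le_div_iff₀ (by positivity) (by norm_num)]; linarith
  have hs1mix : ∀ n : ℕ, s1 ≤ n → C0 * ((8 * m + 1 : ℕ) : ℝ) ^ 2 *
      (1 + Real.log ((8 * m + 1 : ℕ) : ℝ)) ≤ n := by
    intro n hn
    have h1 := Nat.le_ceil (C0 * ((8 * m + 1 : ℕ) : ℝ) ^ 2 * (1 + Real.log ((8 * m + 1 : ℕ) : ℝ)))
    refine h1.trans ?_
    have : s0 ≤ n := by omega
    exact Nat.cast_le.2 this
  have hqL : ∀ c d : ℤ, (m : ℤ) + 1 ≤ c → c ≤ 7 * m + 1 → (m : ℤ) + 1 ≤ d → d ≤ 7 * m + 1 →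
      ∀ n : ℕ, s1 ≤ n → (c + d + n) % 2 = 0 →
      ρ ^ n * (2 / (8 * m + 2)) * (1 / 16) ≤ q (8 * m + 1) n c d := by
    intro c d h1 h2 h3 h4 n hn hpar
    have h := (hmix (8 * m + 1) (by omega) n c d (hs1mix n hn) (by omega) (by push_cast; omega)
      (by omega) (by push_cast; omega) hpar).1
    refine le_trans ?_ h
    have hc := hsin c h1 h2
    have hd := hsin d h3 h4
    rw [hA1] at hc hd ⊢
    have : Real.cos (Real.pi / (8 * m + 2)) = ρ := by rw [hρ, ht, hA1]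
    rw [this, mul_assoc (ρ ^ n * (2 / (8 * (m : ℝ) + 2)))]
    refine mul_le_mul_of_nonneg_left ?_ (by positivity)
    nlinarith
  have hqU : ∀ c d : ℤ, (m : ℤ) + 1 ≤ c → c ≤ 7 * m + 1 → (m : ℤ) + 1 ≤ d → d ≤ 7 * m + 1 →
      ∀ n : ℕ, s1 ≤ n → (c + d + n) % 2 = 0 →
      q (8 * m + 1) n c d ≤ ρ ^ n * (8 / (8 * m + 2)) := by
    intro c d h1 h2 h3 h4 n hn hpar
    have h := (hmix (8 * m + 1) (by omega) n c d (hs1mix n hn) (by omega) (by push_cast; omega)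
      (by omega) (by push_cast; omega) hpar).2
    refine h.trans ?_
    have hc := hsin c h1 h2
    have hd := hsin d h3 h4
    have hc1 := Real.sin_le_one (Real.pi * c / (((8 * m + 1 : ℕ) : ℝ) + 1))
    have hd1 := Real.sin_le_one (Real.pi * d / (((8 * m + 1 : ℕ) : ℝ) + 1))
    rw [hA1] at hc hd hc1 hd1 ⊢
    have : Real.cos (Real.pi / (8 * m + 2)) = ρ := by rw [hρ, ht, hA1]
    rw [this, mul_assoc (ρ ^ n * (8 / (8 * (m : ℝ) + 2)))]
    refine mul_le_of_le_one_right (by positivity) ?_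
    nlinarith
  have hq0 : ∀ (n : ℕ) (c d : ℤ), 0 ≤ q (8 * m + 1) n c d := by
    intro n
    induction n with
    | zero =>
      intro c d
      show (0 : ℝ) ≤ if c = d ∧ 1 ≤ c ∧ c ≤ _ then 1 else 0
      split_ifs <;> norm_num
    | succ n ih =>
      intro c d
      show (0 : ℝ) ≤ if 1 ≤ c ∧ c ≤ _ then (q (8 * m + 1) n (c - 1) d + q (8 * m + 1) n (c + 1) d) / 2
        else 0
      split_ifs
      · have := ih (c - 1) d
        have := ih (c + 1) d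
        positivity
      · exact le_refl 0
  obtain ⟨a, had⟩ : ∃ a : ℝ, a = (2 / (8 * (m : ℝ) + 2)) ^ 2 / 256 := ⟨_, rfl⟩
  obtain ⟨b, hbd⟩ : ∃ b : ℝ, b = (8 / (8 * (m : ℝ) + 2)) ^ 2 := ⟨_, rfl⟩
  have ha0 : 0 < a := by rw [had]; positivity
  have hb0 : 0 < b := by rw [hbd]; positivity
  have habs := abs_hit B {u | u ∈ sq (4 * (m : ℤ) + 1, 4 * (m : ℤ) + 1) (3 * m)} s1 (m ^ 2)
    (by omega) (by omega) (Nat.one_le_pow _ _ hm) a b (ρ ^ 2) ha0 hb0 (by positivity)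
    (pow_le_one₀ hρ0.le hρ1) ?_ ?_ ?_ ?_ x y z hx hy hz hxy
  · -- the conclusion
    have hexB : ∀ n : ℕ, ex n x ∅ (fun y' S' => if y' = y ∧ S' ⊆ B then 1 else 0) =
        It B n (dl y) x := by
      intro n
      rw [ex_It, if_pos (empty_subset _)]
    have hexz : ∀ n : ℕ, ex n x ∅ (fun y' S' => if y' = y ∧ S' ⊆ B ∧ z ∉ S' then 1 else 0) =
        It (B.erase z) n (dl y) x := by
      intro n
      have : (fun (y' : Pt) (S' : Finset Pt) => if y' = y ∧ S' ⊆ B ∧ z ∉ S' then (1 : ℝ) else 0) =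
          fun y' S' => if y' = y ∧ S' ⊆ B.erase z then 1 else 0 := by
        funext y' S'
        simp only [subset_erase]
      rw [this, ex_It, if_pos (empty_subset _)]
    rw [hexB, hexz]
    constructor
    · -- lower bound
      have hTx : a * (ρ ^ 2) ^ (s1 + (2 * m ^ 2 + s1)) ≤
          It B (s1 + (2 * m ^ 2 + s1)) (dl y) x := by
        obtain ⟨a1, a2, a3, a4, a5⟩ := hin x hx
        obtain ⟨b1, b2, b3, b4, b5⟩ := hin y hy
        rw [hItq x hx]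
        have hpar : (x.1 + y.1 + (s1 + (2 * m ^ 2 + s1) : ℕ)) % 2 = 0 := by
          generalize m ^ 2 = M at *
          push_cast
          omega
        have hpar2 : (x.2 + y.2 + (s1 + (2 * m ^ 2 + s1) : ℕ)) % 2 = 0 := by
          generalize m ^ 2 = M at *
          push_cast at hpar ⊢
          omega
        have h1 := hqL x.1 y.1 a1 a2 b1 b2 _ (by omega) hpar
        have h2 := hqL x.2 y.2 a3 a4 b3 b4 _ (by omega) hpar2
        rw [had]
        generalize s1 + (2 * m ^ 2 + s1) = n at *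
        calc (2 / (8 * (m : ℝ) + 2)) ^ 2 / 256 * (ρ ^ 2) ^ n
            = (ρ ^ n * (2 / (8 * m + 2)) * (1 / 16)) * (ρ ^ n * (2 / (8 * m + 2)) * (1 / 16)) := by
              rw [← pow_mul, mul_comm 2 n, pow_mul]; ring
          _ ≤ _ := mul_le_mul h1 h2 (by positivity) (hq0 _ _ _)
      refine le_trans ?_ hTx
      -- exp(-(C1+9)(1+L)) ≤ a R^T
      have hρexp : Real.exp (-t ^ 2) ≤ ρ := by
        refine le_trans ?_ hρlow
        rw [Real.exp_neg]
        have h1 := Real.add_one_le_exp (t ^ 2)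
        have h2 : (Real.exp (t ^ 2))⁻¹ ≤ (t ^ 2 + 1)⁻¹ := inv_anti₀ (by positivity) h1
        refine h2.trans ?_
        rw [inv_le_iff_one_le_mul₀ (by positivity)]
        nlinarith [sq_nonneg t]
      have hRT : Real.exp (-(C1 * (1 + L))) ≤ (ρ ^ 2) ^ (s1 + (2 * m ^ 2 + s1)) := by
        have h1 : (Real.exp (-t ^ 2) ^ 2) ^ (s1 + (2 * m ^ 2 + s1)) ≤
            (ρ ^ 2) ^ (s1 + (2 * m ^ 2 + s1)) :=
          pow_le_pow_left₀ (by positivity) (pow_le_pow_left₀ (Real.exp_pos _).le hρexp 2) _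
        refine le_trans ?_ h1
        rw [← Real.exp_nat_mul, ← Real.exp_nat_mul, Real.exp_le_exp]
        generalize s1 + (2 * m ^ 2 + s1) = T at *
        have h2 : (T : ℝ) * t ^ 2 ≤ C1 * m ^ 2 * (1 + L) * (10 / (64 * (m : ℝ) ^ 2)) :=
          mul_le_mul hTle ht2 (by positivity) (by positivity)
        have h3 : C1 * (m : ℝ) ^ 2 * (1 + L) * (10 / (64 * (m : ℝ) ^ 2)) = C1 * (1 + L) * (10 / 64) := by
          field_simp
        have h4 : 0 ≤ C1 * (1 + L) := by positivity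
        push_cast
        nlinarith
      have ha9 : Real.exp (-(9 + 2 * L)) ≤ a := by
        have e1 : Real.exp (9 + 2 * L) = Real.exp 9 * (m : ℝ) ^ 2 := by
          rw [Real.exp_add, two_mul, Real.exp_add, hLd, Real.exp_log (by positivity)]; ring
        have e2 : (6400 : ℝ) ≤ Real.exp 9 := by
          have h1 := Real.exp_one_gt_d9
          have h2 : Real.exp 9 = Real.exp 1 ^ 9 := by rw [← Real.exp_nat_mul]; norm_num
          rw [h2]
          calc (6400 : ℝ) ≤ 2.7 ^ 9 := by norm_num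
            _ ≤ Real.exp 1 ^ 9 := pow_le_pow_left₀ (by norm_num) (by linarith) 9
        rw [Real.exp_neg, e1, had]
        rw [inv_le_iff_one_le_mul₀ (by positivity)]
        have e3 : (8 * (m : ℝ) + 2) ^ 2 ≤ 100 * m ^ 2 := by nlinarith
        have e4 : (2 / (8 * (m : ℝ) + 2)) ^ 2 / 256 * (Real.exp 9 * (m : ℝ) ^ 2) =
            (4 * Real.exp 9 * (m : ℝ) ^ 2) / (256 * (8 * (m : ℝ) + 2) ^ 2) := by
          field_simp; ring
        rw [e4, one_le_div (by positivity)]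
        nlinarith [mul_le_mul_of_nonneg_right e2 (show (0 : ℝ) ≤ (m : ℝ) ^ 2 by positivity)]
      calc Real.exp (-(C1 + 9) * (1 + L)) ≤ Real.exp (-(9 + 2 * L) + -(C1 * (1 + L))) := by
            rw [Real.exp_le_exp]; nlinarith
        _ = Real.exp (-(9 + 2 * L)) * Real.exp (-(C1 * (1 + L))) := Real.exp_add _ _
        _ ≤ a * (ρ ^ 2) ^ (s1 + (2 * m ^ 2 + s1)) :=
            mul_le_mul ha9 hRT (Real.exp_pos _).le (by positivity)
    · -- upper bound
      set K := It B (s1 + (2 * m ^ 2 + s1)) (dl y) x with hK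
      have hK0 : 0 ≤ K := It_nonneg _ _ (dl_nonneg y) _ _
      have hHle := harm_le (m ^ 2)
      set H : ℝ := ∑ l ∈ range (2 * m ^ 2), 1 / ((l : ℝ) + 1) with hH
      have hHpos : 0 < H := by
        rw [hH]
        refine sum_pos (fun l _ => by positivity) ⟨0, mem_range.2 (by positivity)⟩
      have hH2 : H ≤ 2 * (1 + L) := by
        refine hHle.trans ?_
        have e1 : ((2 * m ^ 2 : ℕ) : ℝ) = 2 * ((m : ℝ) * m) := by push_cast; ring
        rw [e1, Real.log_mul (by norm_num) (by positivity), Real.log_mul (by positivity)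
          (by positivity)]
        have h1 := Real.log_le_sub_one_of_pos (show (0 : ℝ) < 2 by norm_num)
        rw [← hLd]
        linarith
      have hR2 : 1 / 2 ≤ (ρ ^ 2) ^ (2 * m ^ 2) := by
        rw [← pow_mul]
        have h1 : (1 + (-(t ^ 2 / 2))) ^ (2 * (2 * m ^ 2)) ≤ ρ ^ (2 * (2 * m ^ 2)) :=
          pow_le_pow_left₀ (by linarith) (by linarith) _
        refine le_trans ?_ h1
        have h2 := one_add_mul_le_pow (show (-2 : ℝ) ≤ -(t ^ 2 / 2) by linarith) (2 * (2 * m ^ 2))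
        refine le_trans ?_ h2
        have h3 : (m : ℝ) ^ 2 * t ^ 2 ≤ 10 / 64 := by
          calc (m : ℝ) ^ 2 * t ^ 2 ≤ (m : ℝ) ^ 2 * (10 / (64 * (m : ℝ) ^ 2)) :=
                mul_le_mul_of_nonneg_left ht2 (by positivity)
            _ = 10 / 64 := by field_simp
        push_cast
        nlinarith
      have hκ : 1 / (2 ^ 30 * 400) / (1 + L) ≤
          a ^ 3 * (ρ ^ 2) ^ (2 * m ^ 2) * ((m ^ 2 : ℕ) : ℝ) / (b ^ 2 * H) := by
        have e1 : a ^ 3 * (ρ ^ 2) ^ (2 * m ^ 2) * ((m ^ 2 : ℕ) : ℝ) / (b ^ 2 * H) =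
            (ρ ^ 2) ^ (2 * m ^ 2) * (m : ℝ) ^ 2 / (2 ^ 30 * (8 * (m : ℝ) + 2) ^ 2 * H) := by
          rw [had, hbd]
          push_cast
          field_simp
          norm_num
        rw [e1, div_div, div_le_div_iff₀ (by positivity) (by positivity), one_mul]
        have e3 : (8 * (m : ℝ) + 2) ^ 2 ≤ 100 * m ^ 2 := by nlinarith
        calc 2 ^ 30 * (8 * (m : ℝ) + 2) ^ 2 * H ≤ 2 ^ 30 * (100 * m ^ 2) * (2 * (1 + L)) := by
              refine mul_le_mul (mul_le_mul_of_nonneg_left e3 (by positivity)) hH2 hHpos.le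
                (by positivity)
          _ = 1 / 2 * (m : ℝ) ^ 2 * (2 ^ 30 * 400 * (1 + L)) := by ring
          _ ≤ (ρ ^ 2) ^ (2 * m ^ 2) * (m : ℝ) ^ 2 * (2 ^ 30 * 400 * (1 + L)) := by
              refine mul_le_mul_of_nonneg_right (mul_le_mul_of_nonneg_right hR2 (by positivity))
                (by positivity)
      have := mul_le_mul_of_nonneg_right hκ hK0
      linarith
  · -- hL
    intro u hu v hv n hn hpar
    obtain ⟨a1, a2, a3, a4, a5⟩ := hin u hu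
    obtain ⟨b1, b2, b3, b4, b5⟩ := hin v hv
    rw [hItq u hu]
    have h1 := hqL u.1 v.1 a1 a2 b1 b2 n hn hpar
    have h2 := hqL u.2 v.2 a3 a4 b3 b4 n hn (by omega)
    rw [had]
    calc (2 / (8 * (m : ℝ) + 2)) ^ 2 / 256 * (ρ ^ 2) ^ n
        = (ρ ^ n * (2 / (8 * m + 2)) * (1 / 16)) * (ρ ^ n * (2 / (8 * m + 2)) * (1 / 16)) := by
          rw [← pow_mul, mul_comm 2 n, pow_mul]; ring
      _ ≤ _ := mul_le_mul h1 h2 (by positivity) (hq0 _ _ _)
  · -- hU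
    intro u hu v hv n hn
    obtain ⟨a1, a2, a3, a4, a5⟩ := hin u hu
    obtain ⟨b1, b2, b3, b4, b5⟩ := hin v hv
    rw [hItq u hu]
    by_cases hpar : (u.1 + v.1 + n) % 2 = 0
    · have h1 := hqU u.1 v.1 a1 a2 b1 b2 n hn hpar
      have h2 := hqU u.2 v.2 a3 a4 b3 b4 n hn (by omega)
      rw [hbd]
      calc q (8 * m + 1) n u.1 v.1 * q (8 * m + 1) n u.2 v.2
          ≤ (ρ ^ n * (8 / (8 * m + 2))) * (ρ ^ n * (8 / (8 * m + 2))) :=
            mul_le_mul h1 h2 (hq0 _ _ _) (by positivity)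
        _ = _ := by rw [← pow_mul, mul_comm 2 n, pow_mul]; ring
    · rw [q_parity _ _ _ _ hpar, zero_mul]; positivity
  · intro u hu v hv n hpar
    rw [hItq u hu, q_parity _ _ _ _ hpar, zero_mul]
  · intro u hu n
    rw [hItq u hu]
    have h1 := (hRet (8 * m + 1) n u.1)
    have h2 := (hRet (8 * m + 1) n u.2)
    have h3 := mul_le_mul h1.2 h2.2 h2.1 (by positivity)
    refine h3.trans (le_of_eq ?_)
    have h4 : (0 : ℝ) ≤ (n : ℝ) + 1 := by positivity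
    rw [div_mul_div_comm, one_mul, Real.mul_self_sqrt h4]

end

end Pool.Agent.H134R3.DM
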