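import Pool.Agent.H308R3.DM.Stmts

set_option autoImplicit false
set_option maxHeartbeats 4000000

namespace Pool.Agent.H134R3.DM

open Finset Pool.Agent.H308R3.DM
open scoped Classical BigOperators

noncomputable section

/-- iterated killed transition operator -/
def It (D : Finset Pt) : ℕ → (Pt → ℝ) → Pt → ℝ
  | 0, φ, x => φ x
  | n + 1, φ, x => (∑ s : Stp, if x + dv s ∈ D then It D n φ (x + dv s) else 0) / 4

def dl (y : Pt) : Pt → ℝ := fun w => if w = y then 1 else 0

theorem ex_It (D : Finset Pt) (y : Pt) (n : ℕ) : ∀ (x : Pt) (S : Finset Pt),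
    ex n x S (fun y' S' => if y' = y ∧ S' ⊆ D then 1 else 0) = if S ⊆ D then It D n (dl y) x else 0 := by
  induction n with
  | zero =>
    intro x S
    show (if x = y ∧ S ⊆ D then (1 : ℝ) else 0) = if S ⊆ D then (if x = y then (1 : ℝ) else 0) else 0
    by_cases h1 : S ⊆ D <;> by_cases h2 : x = y <;> simp [h1, h2]
  | succ n ih =>
    intro x S
    show (∑ s : Stp, ex n (x + dv s) (insert (x + dv s) S)
      (fun y' S' => if y' = y ∧ S' ⊆ D then 1 else 0)) / 4 = _
    by_cases h1 : S ⊆ D
    · rw [if_pos h1]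
      show _ = (∑ s : Stp, if x + dv s ∈ D then It D n (dl y) (x + dv s) else 0) / 4
      congr 1
      refine sum_congr rfl fun s _ => ?_
      rw [ih]
      by_cases h2 : x + dv s ∈ D
      · rw [if_pos h2, if_pos (insert_subset h2 h1)]
      · rw [if_neg h2, if_neg fun h => h2 (h (mem_insert_self _ _))]
    · rw [if_neg h1]
      rw [sum_eq_zero, zero_div]
      intro s _
      rw [ih, if_neg fun h => h1 ((subset_insert _ _).trans h)]

theorem It_nonneg (D : Finset Pt) (φ : Pt → ℝ) (h : ∀ w, 0 ≤ φ w) (n : ℕ) : ∀ x, 0 ≤ It D n φ x := by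
  induction n with
  | zero => exact h
  | succ n ih =>
    intro x
    refine div_nonneg (sum_nonneg fun s _ => ?_) (by norm_num)
    split_ifs
    · exact ih _
    · exact le_refl 0

theorem It_add (D : Finset Pt) (φ : Pt → ℝ) (s n : ℕ) : ∀ x, It D (s + n) φ x = It D s (It D n φ) x := by
  induction s with
  | zero => intro x; rw [Nat.zero_add]; rfl
  | succ s ih =>
    intro x
    rw [Nat.succ_add]
    show (∑ t : Stp, if x + dv t ∈ D then It D (s + n) φ (x + dv t) else 0) / 4 =
      (∑ t : Stp, if x + dv t ∈ D then It D s (It D n φ) (x + dv t) else 0) / 4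
    congr 1
    refine sum_congr rfl fun t _ => ?_
    rw [ih]

theorem It_lin (D : Finset Pt) (s : ℕ) : ∀ (ψ φ : Pt → ℝ) (I : Finset ℕ) (g : ℕ → Pt → ℝ) (c : ℕ → ℝ),
    (∀ w, φ w = ψ w + ∑ i ∈ I, g i w * c i) →
    ∀ x, It D s φ x = It D s ψ x + ∑ i ∈ I, It D s (g i) x * c i := by
  induction s with
  | zero => intro ψ φ I g c h x; exact h x
  | succ s ih =>
    intro ψ φ I g c h x
    have e := ih ψ φ I g c h
    show (∑ t : Stp, if x + dv t ∈ D then It D s φ (x + dv t) else 0) / 4 =
      (∑ t : Stp, if x + dv t ∈ D then It D s ψ (x + dv t) else 0) / 4 +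
        ∑ i ∈ I, (∑ t : Stp, if x + dv t ∈ D then It D s (g i) (x + dv t) else 0) / 4 * c i
    have e2 : ∀ i, (∑ t : Stp, if x + dv t ∈ D then It D s (g i) (x + dv t) else 0) / 4 * c i =
        ∑ t : Stp, (if x + dv t ∈ D then It D s (g i) (x + dv t) * c i else 0) / 4 := by
      intro i
      rw [div_mul_eq_mul_div, sum_mul, sum_div]
      refine sum_congr rfl fun t _ => ?_
      split_ifs <;> ring
    rw [sum_congr rfl fun i _ => e2 i, sum_comm, sum_div, sum_div, ← sum_add_distrib]
    refine sum_congr rfl fun t _ => ?_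
    split_ifs
    · rw [e, add_div, sum_div]
    · simp

/-- the killed kernel, avoiding `z` at all times including the time `0` -/
def Kz (B : Finset Pt) (z : Pt) (n : ℕ) (φ : Pt → ℝ) : Pt → ℝ :=
  fun w => if w = z then 0 else It (B.erase z) n φ w

/-- first visit of `z` at time `i` -/
def hh (B : Finset Pt) (z : Pt) : ℕ → Pt → ℝ
  | 0, w => if w = z then 1 else 0
  | i + 1, w => if w = z then 0 else
      (∑ s : Stp, if w + dv s ∈ B then hh B z i (w + dv s) else 0) / 4

theorem hh_nonneg (B : Finset Pt) (z : Pt) (i : ℕ) : ∀ w, 0 ≤ hh B z i w := by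
  induction i with
  | zero => intro w; show (0 : ℝ) ≤ if w = z then 1 else 0; split_ifs <;> norm_num
  | succ i ih =>
    intro w
    show (0 : ℝ) ≤ if w = z then 0 else
      (∑ s : Stp, if w + dv s ∈ B then hh B z i (w + dv s) else 0) / 4
    split_ifs with h
    · exact le_refl 0
    · refine div_nonneg (sum_nonneg fun s _ => ?_) (by norm_num)
      split_ifs
      · exact ih _
      · exact le_refl 0

theorem decomp (B : Finset Pt) (z : Pt) (φ : Pt → ℝ) (n : ℕ) : ∀ w,
    It B n φ w = Kz B z n φ w + ∑ i ∈ range (n + 1), hh B z i w * It B (n - i) φ z := by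
  induction n with
  | zero =>
    intro w
    rw [zero_add, sum_range_one]
    show φ w = (if w = z then 0 else φ w) + (if w = z then 1 else 0) * φ z
    split_ifs with h
    · rw [h]; ring
    · ring
  | succ n ih =>
    intro w
    rw [sum_range_succ']
    by_cases h : w = z
    · subst h
      have h1 : ∀ i, hh B w (i + 1) w = 0 := fun i => if_pos rfl
      have h2 : hh B w 0 w = 1 := if_pos rfl
      have h3 : Kz B w (n + 1) φ w = 0 := if_pos rfl
      rw [h2, h3, sum_eq_zero fun i _ => by rw [h1, zero_mul]]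
      simp
    · have h2 : hh B z 0 w = 0 := if_neg h
      have h1 : ∀ i, hh B z (i + 1) w =
        (∑ s : Stp, if w + dv s ∈ B then hh B z i (w + dv s) else 0) / 4 := fun i => if_neg h
      have h3 : Kz B z (n + 1) φ w =
          (∑ s : Stp, if w + dv s ∈ B then Kz B z n φ (w + dv s) else 0) / 4 := by
        show (if w = z then 0 else (∑ s : Stp, if w + dv s ∈ B.erase z then
          It (B.erase z) n φ (w + dv s) else 0) / 4) = _
        rw [if_neg h]
        congr 1
        refine sum_congr rfl fun s _ => ?_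
        by_cases h4 : w + dv s ∈ B
        · by_cases h5 : w + dv s = z
          · rw [if_neg fun hh => (mem_erase.1 hh).1 h5, if_pos h4]
            exact (if_pos h5).symm
          · rw [if_pos (mem_erase.2 ⟨h5, h4⟩), if_pos h4]
            exact (if_neg h5).symm
        · rw [if_neg fun hh => h4 (mem_erase.1 hh).2, if_neg h4]
      rw [h2, zero_mul, add_zero, h3]
      show (∑ s : Stp, if w + dv s ∈ B then It B n φ (w + dv s) else 0) / 4 = _
      have e2 : ∀ i ∈ range (n + 1), hh B z (i + 1) w * It B (n + 1 - (i + 1)) φ z =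
          ∑ s : Stp, (if w + dv s ∈ B then hh B z i (w + dv s) * It B (n - i) φ z else 0) / 4 := by
        intro i _
        rw [h1, Nat.add_sub_add_right, div_mul_eq_mul_div, sum_mul, sum_div]
        refine sum_congr rfl fun t _ => ?_
        split_ifs <;> ring
      rw [sum_congr rfl e2, sum_comm, sum_div, sum_div, ← sum_add_distrib]
      refine sum_congr rfl fun t _ => ?_
      split_ifs
      · rw [ih, add_div, sum_div]
      · simp

theorem Kz_dl (B : Finset Pt) (z : Pt) (n : ℕ) : ∀ w, Kz B z n (dl z) w = 0 := by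
  have h : ∀ n w, w ≠ z → It (B.erase z) n (dl z) w = 0 := by
    intro n
    induction n with
    | zero => intro w hw; exact if_neg hw
    | succ n ih =>
      intro w hw
      show (∑ s : Stp, if w + dv s ∈ B.erase z then It (B.erase z) n (dl z) (w + dv s) else 0) / 4 = 0
      rw [sum_eq_zero, zero_div]
      intro s _
      split_ifs with h
      · exact ih _ (mem_erase.1 h).1
      · rfl
  intro w
  show (if w = z then 0 else It (B.erase z) n (dl z) w) = 0
  split_ifs with hw
  · rfl
  · exact h n w hw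

theorem Kz_le (B : Finset Pt) (z : Pt) (φ : Pt → ℝ) (hφ : ∀ w, 0 ≤ φ w) (n s : ℕ) : ∀ x,
    It (B.erase z) (s + 1 + n) φ x ≤ It B (s + 1) (Kz B z n φ) x := by
  have base : ∀ x, It (B.erase z) (1 + n) φ x ≤ It B 1 (Kz B z n φ) x := by
    intro x
    rw [Nat.add_comm 1 n]
    show (∑ s : Stp, if x + dv s ∈ B.erase z then It (B.erase z) n φ (x + dv s) else 0) / 4 ≤
      (∑ s : Stp, if x + dv s ∈ B then Kz B z n φ (x + dv s) else 0) / 4
    refine div_le_div_of_nonneg_right (sum_le_sum fun s _ => ?_) (by norm_num)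
    by_cases h4 : x + dv s ∈ B
    · by_cases h5 : x + dv s = z
      · rw [if_neg fun hh => (mem_erase.1 hh).1 h5, if_pos h4]
        exact (if_pos h5).ge
      · rw [if_pos (mem_erase.2 ⟨h5, h4⟩), if_pos h4]
        exact (if_neg h5).ge
    · rw [if_neg fun hh => h4 (mem_erase.1 hh).2, if_neg h4]
  have hK : ∀ w, 0 ≤ Kz B z n φ w := by
    intro w
    show (0 : ℝ) ≤ if w = z then 0 else It (B.erase z) n φ w
    split_ifs
    · exact le_refl 0
    · exact It_nonneg _ _ hφ _ _
  induction s with
  | zero => intro x; rw [Nat.zero_add]; exact base x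
  | succ s ih =>
    intro x
    have e : s + 1 + 1 + n = (s + 1 + n) + 1 := by ring
    rw [e]
    show (∑ t : Stp, if x + dv t ∈ B.erase z then It (B.erase z) (s + 1 + n) φ (x + dv t) else 0) / 4 ≤
      (∑ t : Stp, if x + dv t ∈ B then It B (s + 1) (Kz B z n φ) (x + dv t) else 0) / 4
    refine div_le_div_of_nonneg_right (sum_le_sum fun t _ => ?_) (by norm_num)
    by_cases h4 : x + dv t ∈ B
    · rw [if_pos h4]
      split_ifs
      · exact ih _
      · exact It_nonneg _ _ hK _ _
    · rw [if_neg fun hh => h4 (mem_erase.1 hh).2, if_neg h4]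

theorem dl_nonneg (y w : Pt) : 0 ≤ dl y w := by
  unfold dl; split_ifs <;> norm_num

/-- first visit of `z` after time `s` -/
def ff (B : Finset Pt) (z : Pt) (s i : ℕ) (x : Pt) : ℝ := It B s (hh B z i) x

theorem ff_nonneg (B : Finset Pt) (z : Pt) (s i : ℕ) (x : Pt) : 0 ≤ ff B z s i x :=
  It_nonneg _ _ (hh_nonneg B z i) _ _

theorem renewal (B : Finset Pt) (z x : Pt) (s n : ℕ) : It B (s + n) (dl z) x =
    ∑ i ∈ range (n + 1), ff B z s i x * It B (n - i) (dl z) z := by
  rw [It_add, It_lin B s (Kz B z n (dl z)) _ _ _ _ (decomp B z (dl z) n)]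
  have h : It B s (Kz B z n (dl z)) x = 0 := by
    have h0 : Kz B z n (dl z) = fun _ => 0 := funext (Kz_dl B z n)
    rw [h0]
    have h1 : ∀ s x, It B s (fun _ => (0 : ℝ)) x = 0 := by
      intro s
      induction s with
      | zero => intro x; rfl
      | succ s ih =>
        intro x
        show (∑ t : Stp, if x + dv t ∈ B then It B s (fun _ => (0 : ℝ)) (x + dv t) else 0) / 4 = 0
        rw [sum_eq_zero, zero_div]
        intro t _
        rw [ih]; simp
    exact h1 s x
  rw [h, zero_add]; rfl

theorem hit_lower (B : Finset Pt) (z x : Pt) (φ : Pt → ℝ) (hφ : ∀ w, 0 ≤ φ w) (s n : ℕ) (hs : 1 ≤ s) :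
    It (B.erase z) (s + n) φ x + ∑ i ∈ range (n + 1), ff B z s i x * It B (n - i) φ z ≤
      It B (s + n) φ x := by
  obtain ⟨s, rfl⟩ : ∃ t, s = t + 1 := ⟨s - 1, by omega⟩
  have h1 := Kz_le B z φ hφ n s x
  have h2 : It B (s + 1 + n) φ x = It B (s + 1) (Kz B z n φ) x +
      ∑ i ∈ range (n + 1), ff B z (s + 1) i x * It B (n - i) φ z := by
    rw [It_add, It_lin B (s + 1) (Kz B z n φ) _ _ _ _ (decomp B z φ n)]; rfl
  linarith

/-! ### Parity -/

theorem q_parity (A : ℕ) (n : ℕ) : ∀ x y : ℤ, (x + y + n) % 2 ≠ 0 → q A n x y = 0 := by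
  induction n with
  | zero =>
    intro x y h
    show (if x = y ∧ 1 ≤ x ∧ x ≤ A then (1 : ℝ) else 0) = 0
    refine if_neg fun hh => h ?_
    push_cast
    omega
  | succ n ih =>
    intro x y h
    show (if 1 ≤ x ∧ x ≤ A then (q A n (x - 1) y + q A n (x + 1) y) / 2 else 0) = 0
    push_cast at h
    rw [ih (x - 1) y (by omega), ih (x + 1) y (by omega)]
    simp

end

end Pool.Agent.H134R3.DM
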